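import Mathlib
import Pool.Agent.MP_9a65c4_lc.Defs
import Pool.Agent.Mg.F9a65c4.Ge4114e

open Pool.Agent.MP_9a65c4_lc

theorem Pool.Agent.Results.MP_9a65c4_lc.QuasiMinimalNotKleene.result : ∃ A : Set ℕ,
    (¬ REPred (· ∈ A) ∧ ∀ y : ℕ → ℕ, Reduces {y} (enumNames A) → Computable y) ∧
    ∃ Φ : (ℕ → ℕ) → ℕ, Continuous Φ ∧ (¬ ∃ α ∈ associates Φ, Computable α) ∧
      Reduces (associates Φ) (enumNames A) :=
  Pool.Agent.MP_9a65c4_lc.main
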